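import Pool.Agent.Helper95.LN.Stmts

/-!
# Row EB: linear upper bound of the energy
-/

set_option autoImplicit false

namespace Pool.Agent.Helper89.LN

open MeasureTheory Filter
open Pool.Agent.Helper95.PW Pool.Agent.Helper95.LN

/-! ### the length -/

lemma nr_eq (y : R3) : nr y = ‖(WithLp.toLp 2 y : EuclideanSpace ℝ (Fin 3))‖ := by
  rw [EuclideanSpace.norm_eq]
  simp [nr, Fin.sum_univ_three, sq_abs]

lemma nr_nonneg (y : R3) : 0 ≤ nr y := Real.sqrt_nonneg _

lemma nr_comm (x y : R3) : nr (x - y) = nr (y - x) := by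
  unfold nr
  congr 1
  simp only [Pi.sub_apply]
  ring

lemma nr_tri (y a b : R3) : nr (a - b) ≤ nr (y - a) + nr (y - b) := by
  rw [nr_comm y a, nr_eq, nr_eq, nr_eq]
  have h : (WithLp.toLp 2 (a - b) : EuclideanSpace ℝ (Fin 3)) =
      WithLp.toLp 2 (a - y) + WithLp.toLp 2 (y - b) := by
    rw [← WithLp.toLp_add, sub_add_sub_cancel]
  rw [h]
  exact norm_add_le _ _

/-! ### sums -/

lemma half_sum {n : ℕ} (S : Fin n → Fin n → ℝ) (hs : ∀ i j, S i j = S j i)
    (h0 : ∀ i, S i i = 0) :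
    2 * (∑ i, ∑ j, if i < j then S i j else 0) = ∑ i, ∑ j, S i j := by
  have e : ∀ i j, S i j = (if i < j then S i j else 0) + (if j < i then S i j else 0) := by
    intro i j
    rcases lt_trichotomy i j with h | h | h
    · rw [if_pos h, if_neg (not_lt.2 h.le), add_zero]
    · subst h
      rw [if_neg (lt_irrefl i), h0, add_zero]
    · rw [if_neg (not_lt.2 h.le), if_pos h, zero_add]
  have e2 : ∑ i, ∑ j, (if j < i then S i j else 0) = ∑ i, ∑ j, if i < j then S i j else 0 := by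
    rw [Finset.sum_comm]
    refine Finset.sum_congr rfl fun i _ => Finset.sum_congr rfl fun j _ => ?_
    rw [hs j i]
  have e3 : ∑ i, ∑ j, S i j = (∑ i, ∑ j, if i < j then S i j else 0) +
      ∑ i, ∑ j, if j < i then S i j else 0 := by
    rw [← Finset.sum_add_distrib]
    refine Finset.sum_congr rfl fun i _ => ?_
    rw [← Finset.sum_add_distrib]
    exact Finset.sum_congr rfl fun j _ => e i j
  rw [e3, e2]
  ring

/-- the nucleus of an electron -/
noncomputable def Jn {M : ℕ} (Z : Fin M → ℕ) (k : Fin (∑ j, Z j)) : Fin M :=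
  (finSigmaFinEquiv.symm k).1

/-- the shell of an electron -/
noncomputable def mn {M : ℕ} (Z : Fin M → ℕ) (k : Fin (∑ j, Z j)) : ℕ :=
  ((finSigmaFinEquiv.symm k).2 : ℕ)

lemma mn_lt {M : ℕ} (Z : Fin M → ℕ) (k : Fin (∑ j, Z j)) : mn Z k < Z (Jn Z k) :=
  (finSigmaFinEquiv.symm k).2.2

lemma Jm_inj {M : ℕ} (Z : Fin M → ℕ) (k l : Fin (∑ j, Z j)) (h : Jn Z k = Jn Z l)
    (h2 : mn Z k = mn Z l) : k = l := by
  apply finSigmaFinEquiv.symm.injective
  unfold Jn at h
  unfold mn at h2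
  generalize finSigmaFinEquiv.symm k = p at h h2
  generalize finSigmaFinEquiv.symm l = q at h h2
  obtain ⟨p1, p2⟩ := p
  obtain ⟨q1, q2⟩ := q
  simp only at h h2
  subst h
  rw [Fin.ext h2]

lemma sum_J {M : ℕ} (Z : Fin M → ℕ) (F : Fin M → ℝ) :
    ∑ k, F (Jn Z k) = ∑ j, (Z j : ℝ) * F j := by
  unfold Jn
  rw [Equiv.sum_comp finSigmaFinEquiv.symm (fun p : (j : Fin M) × Fin (Z j) => F p.1),
    Fintype.sum_sigma]
  refine Finset.sum_congr rfl fun j _ => ?_
  simp

/-! ### translates -/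

lemma pd_tr (i : Fin 3) (g : R3 → ℝ) (c y : R3) : pd i (fun w => g (w - c)) y = pd i g (y - c) := by
  unfold pd
  rw [fderiv_comp_sub]

lemma tsupport_tr (g : R3 → ℝ) (c y : R3) (h : y ∈ tsupport (fun w => g (w - c))) :
    y - c ∈ tsupport g := by
  have e : tsupport (fun w => g (w - c)) ⊆ (fun w => w - c) ⁻¹' tsupport g := by
    apply closure_minimal
    · intro w hw
      exact subset_tsupport g hw
    · exact (isClosed_tsupport g).preimage (by fun_prop)
  exact e h

lemma kap_ne (h2 : ST_ORB) : kap ≠ 0 := by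
  obtain ⟨C, hC, h⟩ := h2
  obtain ⟨-, -, -, h1, h3, -⟩ := h 1 one_pos
  intro h0
  have : ∫ y, orb 1 y ^ 2 = 0 := by
    simp [h1, h0]
  rw [h3] at this
  exact one_ne_zero this

/-! ### the orbitals -/

/-- the scale of the orbital of the electron `k` -/
noncomputable def sc {M : ℕ} (d : ℝ) (Z : Fin M → ℕ) (k : Fin (∑ j, Z j)) : ℝ :=
  d / 2 / 4 ^ mn Z k

/-- the orbital of the electron `k` -/
noncomputable def fk {M : ℕ} (d : ℝ) (X : Fin M → R3) (Z : Fin M → ℕ) (k : Fin (∑ j, Z j))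
    (y : R3) : ℝ := orb (sc d Z k) (y - X (Jn Z k))

section
variable {M : ℕ} (d : ℝ) (hd : 0 < d) (X : Fin M → R3) (Z : Fin M → ℕ)

include hd

lemma sc_pos (k : Fin (∑ j, Z j)) : 0 < sc d Z k := by
  unfold sc; positivity

lemma sc_le (k : Fin (∑ j, Z j)) : sc d Z k ≤ d / 2 := by
  unfold sc
  exact div_le_self (by positivity) (one_le_pow₀ (by norm_num))

lemma sc_ge (N : ℕ) (k : Fin (∑ j, Z j)) (h : mn Z k ≤ N) : d / 2 / 4 ^ N ≤ sc d Z k := by
  unfold sc
  have h4 : (4 : ℝ) ^ mn Z k ≤ 4 ^ N := pow_le_pow_right₀ (by norm_num) h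
  gcongr

lemma sc_lt (k l : Fin (∑ j, Z j)) (h : mn Z k < mn Z l) : sc d Z l ≤ sc d Z k / 4 := by
  unfold sc
  have h4 : (4 : ℝ) ^ (mn Z k + 1) ≤ 4 ^ mn Z l := pow_le_pow_right₀ (by norm_num) h
  rw [div_div (d / 2), ← pow_succ]
  gcongr

lemma fk_disj (C : ℝ) (h : ∀ a : ℝ, 0 < a → ContDiff ℝ (⊤ : ℕ∞) (orb a) ∧
    HasCompactSupport (orb a) ∧ (∀ y, y ∈ tsupport (orb a) → a / 2 ≤ nr y ∧ nr y ≤ a) ∧
    (∀ y, orb a y ^ 2 = et a y / kap) ∧ ∫ y, orb a y ^ 2 = 1 ∧
    ∑ i, ∫ y, pd i (orb a) y ^ 2 ≤ C / a ^ 2) (hX : Sep X d) (k l : Fin (∑ j, Z j)) (y : R3)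
    (hk : y ∈ tsupport (fk d X Z k)) (hl : y ∈ tsupport (fk d X Z l)) : k = l := by
  have k1 := (h _ (sc_pos d hd Z k)).2.2.1 _ (tsupport_tr (orb (sc d Z k)) _ _ hk)
  have l1 := (h _ (sc_pos d hd Z l)).2.2.1 _ (tsupport_tr (orb (sc d Z l)) _ _ hl)
  have pk := sc_pos d hd Z k
  have pl := sc_pos d hd Z l
  have lk := sc_le d hd Z k
  have ll := sc_le d hd Z l
  by_cases hJ : Jn Z k = Jn Z l
  · apply Jm_inj Z k l hJ
    rw [hJ] at k1
    rcases lt_trichotomy (mn Z k) (mn Z l) with hm | hm | hm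
    · have := sc_lt d hd Z k l hm
      linarith [k1.1, l1.2]
    · exact hm
    · have := sc_lt d hd Z l k hm
      linarith [l1.1, k1.2]
  · exfalso
    have h4 := hX _ _ hJ
    have h5 := nr_tri y (X (Jn Z k)) (X (Jn Z l))
    linarith [k1.2, l1.2]

end

theorem EB (h1 : ST_TRE) (h2 : ST_ORB) (h3 : ST_PT1) (h4 : ST_PT2) : ST_EB := by
  have hkap := kap_ne h2
  obtain ⟨C0, hC0, ho⟩ := h2
  intro z d hz hd
  set N : ℕ := ⌊z⌋₊ with hN
  set B : ℝ := 8 * 4 ^ N / d with hB
  have hB0 : 0 < B := by positivity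
  refine ⟨C0 * (2 * 4 ^ N / d) ^ 2 + z * B + 1, by positivity, ?_⟩
  intro n M X Z E hX hn hZ hE
  subst hn
  have hZN : ∀ j, Z j ≤ N := fun j => Nat.le_floor (hZ j)
  have hmN : ∀ k, mn Z k ≤ N := fun k => ((mn_lt Z k).trans_le (hZN _)).le
  obtain ⟨ψ, hs, ha, hp, hk, hpr, hon⟩ := h1 (∑ j, Z j) (fk d X Z)
    (fun l => (ho _ (sc_pos d hd Z l)).1.comp (contDiff_id.sub contDiff_const))
    (fun l => (ho _ (sc_pos d hd Z l)).2.1.comp_homeomorph (Homeomorph.subRight (X (Jn Z l))))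
    (fun i j y hi hj => fk_disj d hd X Z C0 ho hX i j y hi hj)
    (fun l => by
      have := (ho _ (sc_pos d hd Z l)).2.2.2.2.1
      rw [← integral_sub_right_eq_self _ (X (Jn Z l))] at this
      exact this)
  have hE1 := hE ψ hs ha
  unfold QM at hE1
  rw [hk, hpr, hon M X (fun j => (Z j : ℝ))] at hE1
  rw [← mul_add, ← mul_sub, mul_comm E] at hE1
  have hE2 := le_of_mul_le_mul_left hE1 hp
  -- squares of the orbitals
  have hf : ∀ k y, fk d X Z k y ^ 2 = et (sc d Z k) (y - X (Jn Z k)) / kap := fun k y =>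
    (ho _ (sc_pos d hd Z k)).2.2.2.1 _
  -- kinetic energy
  have hkin : ∑ l, ∑ i, ∫ y, pd i (fk d X Z l) y ^ 2 ≤
      ((∑ j, Z j : ℕ) : ℝ) * (C0 * (2 * 4 ^ N / d) ^ 2) := by
    have : ∀ l, ∑ i, ∫ y, pd i (fk d X Z l) y ^ 2 ≤ C0 * (2 * 4 ^ N / d) ^ 2 := by
      intro l
      have e1 : ∑ i, ∫ y, pd i (fk d X Z l) y ^ 2 =
          ∑ i, ∫ y, pd i (orb (sc d Z l)) y ^ 2 := by
        refine Finset.sum_congr rfl fun i _ => ?_
        rw [← integral_sub_right_eq_self (fun y => pd i (orb (sc d Z l)) y ^ 2) (X (Jn Z l))]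
        refine integral_congr_ae (Eventually.of_forall fun y => ?_)
        show pd i (fun w => orb (sc d Z l) (w - X (Jn Z l))) y ^ 2 = _
        rw [pd_tr]
      rw [e1]
      refine ((ho _ (sc_pos d hd Z l)).2.2.2.2.2).trans ?_
      have h5 := sc_ge d hd Z N l (hmN l)
      have h6 : C0 / sc d Z l ^ 2 ≤ C0 / (d / 2 / 4 ^ N) ^ 2 := by gcongr
      refine h6.trans (le_of_eq ?_)
      field_simp
    calc ∑ l, ∑ i, ∫ y, pd i (fk d X Z l) y ^ 2
        ≤ ∑ l : Fin (∑ j, Z j), C0 * (2 * 4 ^ N / d) ^ 2 := Finset.sum_le_sum fun l _ => this l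
      _ = _ := by simp
  -- the interaction of the atoms
  set T : Fin M → Fin M → ℝ := fun i j => if i = j then 0 else 1 / nr (X i - X j) with hT
  have hTs : ∀ i j, T i j = T j i := by
    intro i j
    simp only [hT]
    by_cases h : i = j
    · rw [if_pos h, if_pos h.symm]
    · rw [if_neg h, if_neg (Ne.symm h), nr_comm]
  -- nuclei
  have hnuc : 2 * nucR X (fun j => (Z j : ℝ)) = ∑ i, ∑ j, (Z i : ℝ) * (Z j * T i j) := by
    unfold nucR
    rw [← half_sum (fun i j => (Z i : ℝ) * (Z j * T i j))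
      (fun i j => by rw [hTs i j]; ring) (fun i => by simp [hT])]
    congr 1
    refine Finset.sum_congr rfl fun i _ => Finset.sum_congr rfl fun j _ => ?_
    by_cases h : i < j
    · rw [if_pos h, if_pos h]
      simp only [hT]
      rw [if_neg h.ne]
      ring
    · rw [if_neg h, if_neg h]
  -- attraction
  have hone : 2 * nucR X (fun j => (Z j : ℝ)) ≤
      ∑ l, ∑ j, (Z j : ℝ) * ∫ y, fk d X Z l y ^ 2 / nr (y - X j) := by
    have e1 : 2 * nucR X (fun j => (Z j : ℝ)) = ∑ l, ∑ j, (Z j : ℝ) * T (Jn Z l) j := by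
      rw [hnuc, sum_J Z (fun i => ∑ j, (Z j : ℝ) * T i j)]
      refine Finset.sum_congr rfl fun i _ => ?_
      rw [Finset.mul_sum]
    rw [e1]
    refine Finset.sum_le_sum fun l _ => Finset.sum_le_sum fun j _ => ?_
    refine mul_le_mul_of_nonneg_left ?_ (Nat.cast_nonneg _)
    simp only [hT]
    by_cases h : Jn Z l = j
    · rw [if_pos h]
      exact integral_nonneg fun y => div_nonneg (sq_nonneg _) (nr_nonneg _)
    · rw [if_neg h]
      have h5 := hX _ _ h
      have h6 := h3 (sc d Z l) (X j) (X (Jn Z l)) (sc_pos d hd Z l) (by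
        rw [nr_comm]
        have := sc_le d hd Z l
        linarith)
      have e2 : ∫ y, fk d X Z l y ^ 2 / nr (y - X j) =
          (∫ y, et (sc d Z l) (y - X (Jn Z l)) / nr (y - X j)) / kap := by
        rw [← integral_div]
        refine integral_congr_ae (Eventually.of_forall fun y => ?_)
        simp only [hf]
        rw [div_right_comm]
      rw [e2, h6, nr_comm, div_right_comm, div_self hkap]
  -- repulsion
  have hpair : (∑ k, ∑ l, if k < l then ∫ x, ∫ y, fk d X Z k x ^ 2 * fk d X Z l y ^ 2 /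
      nr (x - y) else 0) ≤ nucR X (fun j => (Z j : ℝ)) + ((∑ j, Z j : ℕ) : ℝ) * (z * B) := by
    have e0 : ∀ k l, (∫ x, ∫ y, fk d X Z k x ^ 2 * fk d X Z l y ^ 2 / nr (x - y)) =
        (∫ x, ∫ y, et (sc d Z k) (x - X (Jn Z k)) * et (sc d Z l) (y - X (Jn Z l)) /
          nr (x - y)) / kap ^ 2 := by
      intro k l
      rw [← integral_div]
      refine integral_congr_ae (Eventually.of_forall fun x => ?_)
      simp only
      rw [← integral_div]
      refine integral_congr_ae (Eventually.of_forall fun y => ?_)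
      simp only [hf]
      rw [div_mul_div_comm, div_right_comm, sq kap]
    have e1 : ∀ k l, k < l → (∫ x, ∫ y, fk d X Z k x ^ 2 * fk d X Z l y ^ 2 / nr (x - y)) ≤
        T (Jn Z k) (Jn Z l) + if Jn Z k = Jn Z l then B else 0 := by
      intro k l hkl
      have hk2 : 0 < kap ^ 2 := by positivity
      have pk := sc_pos d hd Z k
      have pl := sc_pos d hd Z l
      have lk := sc_le d hd Z k
      have ll := sc_le d hd Z l
      have gk := sc_ge d hd Z N k (hmN k)
      have gl := sc_ge d hd Z N l (hmN l)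
      have hB' : 4 / (d / 2 / 4 ^ N) = B := by rw [hB]; field_simp; norm_num
      rw [e0]
      simp only [hT]
      by_cases h : Jn Z k = Jn Z l
      · rw [if_pos h, if_pos h, zero_add, div_le_iff₀ hk2, h, mul_comm B]
        have hm : mn Z k ≠ mn Z l := fun hm => hkl.ne (Jm_inj Z k l h hm)
        rcases lt_or_gt_of_ne hm with hm | hm
        · refine ((h4 _ _ (X (Jn Z l)) 0 pk pl).2 (sc_lt d hd Z k l hm)).1.trans ?_
          refine mul_le_mul_of_nonneg_left ?_ hk2.le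
          rw [← hB']
          gcongr
        · refine ((h4 _ _ (X (Jn Z l)) 0 pl pk).2 (sc_lt d hd Z l k hm)).2.trans ?_
          refine mul_le_mul_of_nonneg_left ?_ hk2.le
          rw [← hB']
          gcongr
      · rw [if_neg h, if_neg h, add_zero]
        have h5 := hX _ _ h
        rw [(h4 _ _ (X (Jn Z k)) (X (Jn Z l)) pk pl).1 (by linarith), div_right_comm,
          div_self hk2.ne']
    have e2 : (∑ k, ∑ l, if k < l then ∫ x, ∫ y, fk d X Z k x ^ 2 * fk d X Z l y ^ 2 /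
        nr (x - y) else 0) ≤ (∑ k, ∑ l, if k < l then T (Jn Z k) (Jn Z l) else 0) +
        ∑ k, ∑ l, if Jn Z k = Jn Z l then B else 0 := by
      rw [← Finset.sum_add_distrib]
      refine Finset.sum_le_sum fun k _ => ?_
      rw [← Finset.sum_add_distrib]
      refine Finset.sum_le_sum fun l _ => ?_
      by_cases h : k < l
      · rw [if_pos h, if_pos h]
        exact e1 k l h
      · rw [if_neg h, if_neg h, zero_add]
        split_ifs
        · exact hB0.le
        · exact le_rfl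
    have e3 : (∑ k, ∑ l, if k < l then T (Jn Z k) (Jn Z l) else 0) =
        nucR X (fun j => (Z j : ℝ)) := by
      have e4 := half_sum (fun k l => T (Jn Z k) (Jn Z l)) (fun k l => hTs _ _)
        (fun k => by simp [hT])
      have e5 : ∑ k, ∑ l, T (Jn Z k) (Jn Z l) = ∑ i, ∑ j, (Z i : ℝ) * (Z j * T i j) := by
        have : ∀ k, ∑ l, T (Jn Z k) (Jn Z l) = ∑ j, (Z j : ℝ) * T (Jn Z k) j := fun k =>
          sum_J Z (fun j => T (Jn Z k) j)
        rw [Finset.sum_congr rfl fun k _ => this k, sum_J Z (fun i => ∑ j, (Z j : ℝ) * T i j)]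
        refine Finset.sum_congr rfl fun i _ => ?_
        rw [Finset.mul_sum]
      rw [e5, ← hnuc] at e4
      linarith
    have e6 : (∑ k, ∑ l, if Jn Z k = Jn Z l then B else 0) ≤
        ((∑ j, Z j : ℕ) : ℝ) * (z * B) := by
      have : ∀ k, (∑ l, if Jn Z k = Jn Z l then B else 0) ≤ z * B := by
        intro k
        rw [sum_J Z (fun j => if Jn Z k = j then B else 0)]
        simp only [mul_ite, mul_zero, Finset.sum_ite_eq, Finset.mem_univ, if_true]
        exact mul_le_mul_of_nonneg_right (hZ _) hB0.le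
      calc _ ≤ ∑ k : Fin (∑ j, Z j), z * B := Finset.sum_le_sum fun k _ => this k
        _ = _ := by simp
    linarith
  have hn0 : (0 : ℝ) ≤ ((∑ j, Z j : ℕ) : ℝ) := Nat.cast_nonneg _
  nlinarith [hE2, hkin, hone, hpair, hn0]

end Pool.Agent.Helper89.LN
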